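import Pool.Agent.Helper19_RFK.Stmts

/-!
# RFK, module FORM
-/

set_option autoImplicit false

open MeasureTheory Set

namespace Pool.Agent.RFK.H7

/-- continuous with compact support -/
def CC (a : ℂ → ℝ) : Prop := Continuous a ∧ HasCompactSupport a

theorem cc_of_adm {L : NNReal} {ρ : ℝ} {g : ℂ → ℝ} (hg : Adm L ρ g) : CC g := by
  refine ⟨hg.lip.continuous, ?_⟩
  refine HasCompactSupport.intro (isCompact_closedBall (0 : ℂ) ρ) (fun x hx => ?_)
  apply hg.supp
  rw [Metric.mem_closedBall, dist_zero_right] at hx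
  exact (not_le.mp hx).le

theorem CC.int {a : ℂ → ℝ} (ha : CC a) : Integrable a :=
  ha.1.integrable_of_hasCompactSupport ha.2

theorem CC.mul {a b : ℂ → ℝ} (ha : CC a) (hb : CC b) : CC (fun x => a x * b x) :=
  ⟨ha.1.mul hb.1, ha.2.mul_right⟩

theorem CC.smul {a : ℂ → ℝ} (ha : CC a) (c : ℝ) : CC (fun x => c * a x) :=
  ⟨continuous_const.mul ha.1, ha.2.mul_left⟩

theorem CC.sub {a b : ℂ → ℝ} (ha : CC a) (hb : CC b) : CC (fun x => a x - b x) := by
  refine ⟨ha.1.sub hb.1, ?_⟩
  exact ha.2.sub hb.2

theorem CC.shift {a : ℂ → ℝ} (ha : CC a) (h : ℂ) : CC (fun x => a (x + h)) := by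
  refine ⟨ha.1.comp (continuous_id.add continuous_const), ?_⟩
  exact ha.2.comp_homeomorph (Homeomorph.addRight h)

instance finb (r : ℝ) : IsFiniteMeasure (volume.restrict (Metric.ball (0 : ℂ) r)) :=
  ⟨by rw [Measure.restrict_apply_univ]; exact measure_ball_lt_top⟩

/-- joint integrability of the correlation integrand -/
theorem prod_int {a b : ℂ → ℝ} (ha : CC a) (hb : CC b) (r : ℝ) :
    Integrable (Function.uncurry fun x h : ℂ => a x * b (x + h))
      (volume.prod (volume.restrict (Metric.ball (0 : ℂ) r))) := by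
  obtain ⟨M, hM⟩ := hb.2.exists_bound_of_continuous hb.1
  have h1 : Integrable (fun p : ℂ × ℂ => ‖a p.1‖ * M)
      (volume.prod (volume.restrict (Metric.ball (0 : ℂ) r))) :=
    ha.int.norm.mul_prod (integrable_const M)
  refine h1.mono' ?_ (Filter.Eventually.of_forall fun p => ?_)
  · apply Continuous.aestronglyMeasurable
    exact (ha.1.comp continuous_fst).mul (hb.1.comp (continuous_fst.add continuous_snd))
  · simp only [Function.uncurry]
    rw [norm_mul]
    exact mul_le_mul_of_nonneg_left (hM _) (norm_nonneg _)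

theorem outer_int {a b : ℂ → ℝ} (ha : CC a) (hb : CC b) (r : ℝ) :
    Integrable (fun x => ∫ h in Metric.ball (0 : ℂ) r, a x * b (x + h)) :=
  (prod_int ha hb r).integral_prod_left

theorem inner_int {b : ℂ → ℝ} (hb : CC b) (x : ℂ) (r : ℝ) :
    Integrable (fun h => b (x + h)) (volume.restrict (Metric.ball (0 : ℂ) r)) := by
  have h1 : Integrable (fun h => b (h + x)) (volume.restrict (Metric.ball (0 : ℂ) r)) :=
    (hb.shift x).int.integrableOn
  have h2 : (fun h => b (h + x)) = fun h => b (x + h) := by
    funext h; rw [add_comm]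
  rwa [h2] at h1

/-- the double integral -/
noncomputable def J (r : ℝ) (a b : ℂ → ℝ) : ℝ :=
  ∫ x, ∫ h in Metric.ball (0 : ℂ) r, a x * b (x + h)

theorem J_swap {a b : ℂ → ℝ} (ha : CC a) (hb : CC b) (r : ℝ) :
    J r a b = ∫ h in Metric.ball (0 : ℂ) r, ∫ x, a x * b (x + h) :=
  integral_integral_swap (prod_int ha hb r)

theorem corr_neg (a b : ℂ → ℝ) (h : ℂ) :
    (∫ x, a x * b (x + h)) = ∫ x, b x * a (x + -h) := by
  rw [← integral_add_right_eq_self (fun x => b x * a (x + -h)) h]
  apply integral_congr_ae
  refine Filter.Eventually.of_forall fun x => ?_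
  simp only []
  rw [add_neg_cancel_right, mul_comm]

theorem ball_neg (f : ℂ → ℝ) (r : ℝ) :
    (∫ h in Metric.ball (0 : ℂ) r, f (-h)) = ∫ h in Metric.ball (0 : ℂ) r, f h := by
  rw [← integral_indicator Metric.isOpen_ball.measurableSet,
    ← integral_indicator Metric.isOpen_ball.measurableSet,
    ← integral_neg_eq_self (indicator (Metric.ball (0 : ℂ) r) f)]
  apply integral_congr_ae
  refine Filter.Eventually.of_forall fun x => ?_
  simp only [indicator, Metric.mem_ball, dist_zero_right, norm_neg]

theorem J_symm {a b : ℂ → ℝ} (ha : CC a) (hb : CC b) (r : ℝ) : J r a b = J r b a := by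
  rw [J_swap ha hb, J_swap hb ha, ← ball_neg (fun h => ∫ x, b x * a (x + h)) r]
  apply setIntegral_congr_fun Metric.isOpen_ball.measurableSet
  intro h _
  exact corr_neg a b h

theorem J_sub {a b c : ℂ → ℝ} (ha : CC a) (hb : CC b) (hc : CC c) (r : ℝ) :
    J r c (fun x => a x - b x) = J r c a - J r c b := by
  unfold J
  rw [← integral_sub (outer_int hc ha r) (outer_int hc hb r)]
  apply integral_congr_ae
  refine Filter.Eventually.of_forall fun x => ?_
  simp only []
  rw [← integral_sub ((inner_int ha x r).const_mul (c x)) ((inner_int hb x r).const_mul (c x))]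
  apply integral_congr_ae
  refine Filter.Eventually.of_forall fun h => ?_
  simp only []
  ring

theorem J_smul (a c : ℂ → ℝ) (β r : ℝ) :
    J r c (fun x => β * a x) = β * J r c a := by
  unfold J
  rw [← integral_const_mul]
  apply integral_congr_ae
  refine Filter.Eventually.of_forall fun x => ?_
  simp only []
  rw [← integral_const_mul]
  apply integral_congr_ae
  refine Filter.Eventually.of_forall fun h => ?_
  simp only []
  ring

theorem J_self_le {a : ℂ → ℝ} (ha : CC a) (r : ℝ) :
    J r a a ≤ (volume (Metric.ball (0 : ℂ) r)).toReal * ∫ x, a x ^ 2 := by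
  rw [J_swap ha ha]
  have hle : ∀ h : ℂ, (∫ x, a x * a (x + h)) ≤ ∫ x, a x ^ 2 := by
    intro h
    have e1 : (∫ x, a (x + h) ^ 2) = ∫ x, a x ^ 2 :=
      integral_add_right_eq_self (fun x => a x ^ 2) h
    have i1 : Integrable (fun x => a x ^ 2) := by
      have := (ha.mul ha).int
      simpa [sq] using this
    have i2 : Integrable (fun x => a (x + h) ^ 2) := by
      have := ((ha.shift h).mul (ha.shift h)).int
      simpa [sq] using this
    have e2 : (∫ x, a x ^ 2) = ∫ x, (a x ^ 2 + a (x + h) ^ 2) / 2 := by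
      rw [integral_div, integral_add i1 i2, e1]
      ring
    rw [e2]
    apply integral_mono (ha.mul (ha.shift h)).int ((i1.add i2).div_const 2)
    intro x
    simp only [Pi.add_apply]
    nlinarith [sq_nonneg (a x - a (x + h))]
  calc (∫ h in Metric.ball (0 : ℂ) r, ∫ x, a x * a (x + h))
      ≤ ∫ h in Metric.ball (0 : ℂ) r, ∫ x, a x ^ 2 := by
        apply integral_mono (prod_int ha ha r).integral_prod_right (integrable_const _)
        intro h
        exact hle h
    _ = _ := by
        rw [setIntegral_const]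
        rfl

theorem ener_eq {a b : ℂ → ℝ} (ha : CC a) (hb : CC b) (r : ℝ) :
    ener r a b = (volume (Metric.ball (0 : ℂ) r)).toReal * (∫ x, a x * b x) - J r a b := by
  have h1 : ∀ x, a x * lap r b x =
      (∫ h in Metric.ball (0 : ℂ) r, a x * b (x + h)) -
        (volume (Metric.ball (0 : ℂ) r)).toReal * (a x * b x) := by
    intro x
    unfold lap
    rw [integral_sub (inner_int hb x r) (integrable_const _), setIntegral_const, integral_const_mul]
    simp only [Measure.real, smul_eq_mul]
    ring
  unfold ener J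
  simp only [h1]
  rw [integral_sub (outer_int ha hb r) ((ha.mul hb).int.const_mul _), integral_const_mul]
  ring

/-- FORM -/
theorem form : FormStmt := by
  intro L L' ρ ρ' g γ hg hγ r hr
  have cg := cc_of_adm hg
  have cγ := cc_of_adm hγ
  refine ⟨fun β => ?_, ?_⟩
  · have cb := cγ.smul β
    have cd := cg.sub cb
    have h0 := J_self_le cd r
    rw [J_sub cg cb cd, J_smul, J_symm cd cg, J_symm cd cγ, J_sub cg cb cg, J_sub cg cb cγ, J_smul,
      J_smul, J_symm cγ cg] at h0
    rw [ener_eq cg cγ, ener_eq cγ cγ, ener_eq cg cg]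
    have e : (∫ x, (g x - β * γ x) ^ 2) =
        (∫ x, g x * g x) - 2 * β * (∫ x, g x * γ x) + β ^ 2 * ∫ x, γ x * γ x := by
      have i3 : Integrable (fun x => g x * g x - 2 * β * (g x * γ x)) :=
        (cg.mul cg).int.sub ((cg.mul cγ).int.const_mul _)
      rw [← integral_const_mul, ← integral_const_mul,
        ← integral_sub (cg.mul cg).int ((cg.mul cγ).int.const_mul _),
        ← integral_add i3 ((cγ.mul cγ).int.const_mul _)]
      apply integral_congr_ae
      refine Filter.Eventually.of_forall fun x => ?_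
      simp only []
      ring
    rw [e] at h0
    nlinarith [h0]
  · rw [ener_eq cg cg]
    have : (fun x => g x * g x) = fun x => g x ^ 2 := by
      funext x; ring
    rw [this]
    rfl

end Pool.Agent.RFK.H7
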