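import Pool.Agent.Helper19_RFK.Stmts

/-!
# RFK, module POLI: polarization increases the interaction
-/

set_option autoImplicit false

open MeasureTheory Set

namespace Pool.Agent.RFK.H7

/-- linear part of the reflection -/
noncomputable def rlin (e : ℂ) : ℂ →ₗ[ℝ] ℂ where
  toFun x := x - (2 * inner ℝ e x : ℝ) • e
  map_add' x y := by
    rw [inner_add_right, mul_add, add_smul]; abel
  map_smul' c x := by
    rw [inner_smul_right, RingHom.id_apply, smul_sub, smul_smul]
    congr 2
    ring

theorem rlin_apply (e x : ℂ) : rlin e x = x - (2 * inner ℝ e x : ℝ) • e := rfl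

theorem inner_self_one {e : ℂ} (he : ‖e‖ = 1) : inner ℝ e e = (1 : ℝ) := by
  rw [real_inner_self_eq_norm_sq, he]; norm_num

theorem rlin_invol {e : ℂ} (he : ‖e‖ = 1) (x : ℂ) : rlin e (rlin e x) = x := by
  rw [rlin_apply, rlin_apply, inner_sub_right, inner_smul_right, inner_self_one he]
  rw [sub_sub, ← add_smul]
  have : (2 * inner ℝ e x + 2 * (inner ℝ e x - 2 * inner ℝ e x * 1) : ℝ) = 0 := by ring
  rw [this, zero_smul, sub_zero]

/-- the linear reflection as an isometry -/
noncomputable def rli (e : ℂ) (he : ‖e‖ = 1) : ℂ ≃ₗᵢ[ℝ] ℂ where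
  toLinearEquiv := LinearEquiv.ofInvolutive (rlin e) (rlin_invol he)
  norm_map' x := by
    show ‖rlin e x‖ = ‖x‖
    have h1 : ‖rlin e x‖ ^ 2 = ‖x‖ ^ 2 := by
      rw [rlin_apply, norm_sub_sq_real, inner_smul_right, norm_smul, he, real_inner_comm x e]
      rw [mul_one, Real.norm_eq_abs, sq_abs]
      ring
    exact (sq_eq_sq₀ (norm_nonneg _) (norm_nonneg _)).mp h1

theorem refl_eq {e : ℂ} (he : ‖e‖ = 1) (s : ℝ) (x : ℂ) :
    refl e s x = rli e he x + (2 * s : ℝ) • e := by
  show refl e s x = rlin e x + (2 * s : ℝ) • e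
  rw [rlin_apply, refl, mul_sub, sub_smul]
  abel

theorem refl_mp {e : ℂ} (he : ‖e‖ = 1) (s : ℝ) :
    MeasurePreserving (refl e s) (volume : Measure ℂ) volume := by
  have h1 : refl e s = (fun y => y + (2 * s : ℝ) • e) ∘ (rli e he) := by
    funext x
    exact refl_eq he s x
  rw [h1]
  exact (measurePreserving_add_right volume _).comp (rli e he).measurePreserving

theorem inner_refl {e : ℂ} (he : ‖e‖ = 1) (s : ℝ) (x : ℂ) :
    inner ℝ e (refl e s x) = 2 * s - inner ℝ e x := by
  rw [refl, inner_sub_right, inner_smul_right, inner_self_one he]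
  ring

theorem refl_invol {e : ℂ} (he : ‖e‖ = 1) (s : ℝ) (x : ℂ) : refl e s (refl e s x) = x := by
  have h := inner_refl he s x
  conv_lhs => rw [refl]
  rw [h, refl, sub_sub, ← add_smul]
  have : (2 * (inner ℝ e x - s) + 2 * (2 * s - inner ℝ e x - s) : ℝ) = 0 := by ring
  rw [this, zero_smul, sub_zero]

theorem sub_refl {e : ℂ} (he : ‖e‖ = 1) (s : ℝ) (x y : ℂ) :
    ‖x - refl e s y‖ ^ 2 = ‖x - y‖ ^ 2 + 4 * (inner ℝ e y - s) * (inner ℝ e x - s) := by
  have h1 : x - refl e s y = (x - y) + (2 * (inner ℝ e y - s) : ℝ) • e := by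
    rw [refl]; abel
  rw [h1, norm_add_sq_real, inner_smul_right, norm_smul, he, real_inner_comm e, inner_sub_right,
    mul_one, Real.norm_eq_abs, sq_abs]
  ring

theorem refl_sub_refl {e : ℂ} (he : ‖e‖ = 1) (s : ℝ) (x y : ℂ) :
    ‖refl e s x - refl e s y‖ = ‖x - y‖ := by
  rw [refl_eq he, refl_eq he, add_sub_add_right_eq_sub, ← map_sub, LinearIsometryEquiv.norm_map]

theorem refl_sub {e : ℂ} (he : ‖e‖ = 1) (s : ℝ) (x y : ℂ) :
    ‖refl e s x - y‖ = ‖x - refl e s y‖ := by
  rw [← refl_sub_refl he s (refl e s x) y, refl_invol he]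

/-- the kernel -/
noncomputable def Kr (r : ℝ) (x y : ℂ) : ℝ := if ‖x - y‖ < r then 1 else 0

theorem Kr_nonneg (r : ℝ) (x y : ℂ) : 0 ≤ Kr r x y := by
  unfold Kr; split_ifs <;> norm_num

theorem Kr_le_one (r : ℝ) (x y : ℂ) : Kr r x y ≤ 1 := by
  unfold Kr; split_ifs <;> norm_num

theorem Kr_mono (r : ℝ) {x y x' y' : ℂ} (h : ‖x - y‖ ≤ ‖x' - y'‖) : Kr r x' y' ≤ Kr r x y := by
  unfold Kr
  split_ifs with h1 h2 h2
  · exact le_rfl
  · exact absurd (lt_of_le_of_lt h h1) h2
  · norm_num
  · exact le_rfl

theorem Kr_meas (r : ℝ) : Measurable (fun p : ℂ × ℂ => Kr r p.1 p.2) := by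
  unfold Kr
  apply Measurable.ite _ measurable_const measurable_const
  exact measurableSet_lt (continuous_norm.comp (continuous_fst.sub continuous_snd)).measurable
    measurable_const

/-- the folded integrand -/
noncomputable def FF (r : ℝ) (g : ℂ → ℝ) (p : ℂ × ℂ) : ℝ := g p.1 * g p.2 * Kr r p.1 p.2

theorem FF_int {g : ℂ → ℝ} (hg : Integrable g) (r : ℝ) :
    Integrable (FF r g) ((volume : Measure ℂ).prod volume) := by
  have h1 : Integrable (fun p : ℂ × ℂ => g p.1 * g p.2) ((volume : Measure ℂ).prod volume) :=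
    hg.mul_prod hg
  refine h1.norm.mono' (h1.aestronglyMeasurable.mul (Kr_meas r).aestronglyMeasurable)
    (Filter.Eventually.of_forall fun p => ?_)
  unfold FF
  rw [norm_mul, Real.norm_eq_abs (Kr r p.1 p.2), abs_of_nonneg (Kr_nonneg _ _ _)]
  exact mul_le_of_le_one_right (norm_nonneg _) (Kr_le_one _ _ _)

theorem inter_eq {g : ℂ → ℝ} (hg : Integrable g) (r : ℝ) :
    inter r g = ∫ p, FF r g p ∂((volume : Measure ℂ).prod volume) := by
  rw [integral_prod _ (FF_int hg r)]
  unfold inter
  apply integral_congr_ae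
  refine Filter.Eventually.of_forall fun x => ?_
  simp only []
  rw [← integral_indicator Metric.isOpen_ball.measurableSet,
    ← integral_add_left_eq_self (fun y => FF r g (x, y)) x]
  apply integral_congr_ae
  refine Filter.Eventually.of_forall fun h => ?_
  simp only [indicator, Metric.mem_ball, dist_zero_right, FF, Kr]
  have : ‖x - (x + h)‖ = ‖h‖ := by
    rw [sub_add_cancel_left, norm_neg]
  rw [this]
  split_ifs <;> ring

/-- rearrangement inequality for two pairs -/
theorem pairs (a a' b b' : ℝ) :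
    a * b + a' * b' ≤ max a a' * max b b' + min a a' * min b b' ∧
      a * b' + a' * b ≤ max a a' * max b b' + min a a' * min b b' := by
  rcases le_total a a' with h1 | h1 <;> rcases le_total b b' with h2 | h2 <;>
    simp only [h1, h2, max_eq_left, max_eq_right, min_eq_left, min_eq_right] <;>
    constructor <;> nlinarith [mul_nonneg (sub_nonneg.mpr h1) (sub_nonneg.mpr h2)]

theorem sum_mm (a a' : ℝ) : max a a' + min a a' = a + a' := max_add_min a a'

/-- numerical core, same side -/
theorem core_same (a a' b b' k1 k2 : ℝ) (hk : k2 ≤ k1) :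
    k1 * (a * b + a' * b') + k2 * (a' * b + a * b') ≤
      k1 * (max a a' * max b b' + min a a' * min b b') +
        k2 * (min a a' * max b b' + max a a' * min b b') := by
  have h1 := (pairs a a' b b').1
  have h2 : (max a a' + min a a') * (max b b' + min b b') = (a + a') * (b + b') := by
    rw [sum_mm, sum_mm]
  have h3 : min a a' * max b b' + max a a' * min b b' =
      (a + a') * (b + b') - (max a a' * max b b' + min a a' * min b b') := by
    rw [← h2]; ring
  rw [h3]
  nlinarith [mul_nonneg (sub_nonneg.mpr hk) (sub_nonneg.mpr h1)]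

/-- numerical core, opposite sides -/
theorem core_opp (a a' b b' k1 k2 : ℝ) (hk : k1 ≤ k2) :
    k1 * (a * b + a' * b') + k2 * (a' * b + a * b') ≤
      k1 * (max a a' * min b b' + min a a' * max b b') +
        k2 * (min a a' * min b b' + max a a' * max b b') := by
  have h1 := (pairs a a' b b').2
  have h2 : (max a a' + min a a') * (max b b' + min b b') = (a + a') * (b + b') := by
    rw [sum_mm, sum_mm]
  have h3 : max a a' * min b b' + min a a' * max b b' =
      (a + a') * (b + b') - (max a a' * max b b' + min a a' * min b b') := by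
    rw [← h2]; ring
  have h4 : min a a' * min b b' + max a a' * max b b' =
      max a a' * max b b' + min a a' * min b b' := by ring
  rw [h3, h4]
  nlinarith [mul_nonneg (sub_nonneg.mpr hk) (sub_nonneg.mpr h1)]

/-- the four-fold sum -/
noncomputable def Phi (e : ℂ) (s r : ℝ) (g : ℂ → ℝ) (x y : ℂ) : ℝ :=
  Kr r x y * (g x * g y + g (refl e s x) * g (refl e s y)) +
    Kr r x (refl e s y) * (g (refl e s x) * g y + g x * g (refl e s y))

theorem polar_in {e : ℂ} {s : ℝ} (g : ℂ → ℝ) {x : ℂ} (hx : inner ℝ e x ≤ s) :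
    polar e s g x = max (g x) (g (refl e s x)) := by
  unfold polar; rw [if_pos hx]

theorem polar_refl_in {e : ℂ} (he : ‖e‖ = 1) {s : ℝ} (g : ℂ → ℝ) {x : ℂ}
    (hx : inner ℝ e x ≤ s) : polar e s g (refl e s x) = min (g x) (g (refl e s x)) := by
  unfold polar
  rw [refl_invol he, inner_refl he]
  split_ifs with h
  · have hs : inner ℝ e x = s := by linarith
    have hr : refl e s x = x := by
      rw [refl, hs, sub_self, mul_zero, zero_smul, sub_zero]
    rw [hr, max_self, min_self]
  · rw [min_comm]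

theorem polar_out {e : ℂ} {s : ℝ} (g : ℂ → ℝ) {x : ℂ} (hx : s < inner ℝ e x) :
    polar e s g x = min (g x) (g (refl e s x)) := by
  unfold polar; rw [if_neg (not_le.mpr hx)]

theorem polar_refl_out {e : ℂ} (he : ‖e‖ = 1) {s : ℝ} (g : ℂ → ℝ) {x : ℂ}
    (hx : s < inner ℝ e x) : polar e s g (refl e s x) = max (g x) (g (refl e s x)) := by
  unfold polar
  rw [refl_invol he, inner_refl he, if_pos (by linarith), max_comm]

theorem Phi_le {e : ℂ} (he : ‖e‖ = 1) (s r : ℝ) (g : ℂ → ℝ) (x y : ℂ) :
    Phi e s r g x y ≤ Phi e s r (polar e s g) x y := by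
  have key := sub_refl he s x y
  unfold Phi
  rcases le_or_gt (inner ℝ e x) s with hx | hx <;> rcases le_or_gt (inner ℝ e y) s with hy | hy
  · rw [polar_in g hx, polar_refl_in he g hx, polar_in g hy, polar_refl_in he g hy]
    have hk : Kr r x (refl e s y) ≤ Kr r x y := by
      apply Kr_mono
      have : ‖x - y‖ ^ 2 ≤ ‖x - refl e s y‖ ^ 2 := by
        rw [key]; nlinarith [mul_nonneg (sub_nonneg.mpr hx) (sub_nonneg.mpr hy)]
      exact (sq_le_sq₀ (norm_nonneg _) (norm_nonneg _)).mp this
    exact core_same _ _ _ _ _ _ hk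
  · rw [polar_in g hx, polar_refl_in he g hx, polar_out g hy, polar_refl_out he g hy]
    have hk : Kr r x y ≤ Kr r x (refl e s y) := by
      apply Kr_mono
      have : ‖x - refl e s y‖ ^ 2 ≤ ‖x - y‖ ^ 2 := by
        rw [key]; nlinarith [mul_nonneg (sub_nonneg.mpr hx) (sub_nonneg.mpr hy.le)]
      exact (sq_le_sq₀ (norm_nonneg _) (norm_nonneg _)).mp this
    exact core_opp _ _ _ _ _ _ hk
  · rw [polar_out g hx, polar_refl_out he g hx, polar_in g hy, polar_refl_in he g hy]
    have hk : Kr r x y ≤ Kr r x (refl e s y) := by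
      apply Kr_mono
      have : ‖x - refl e s y‖ ^ 2 ≤ ‖x - y‖ ^ 2 := by
        rw [key]; nlinarith [mul_nonneg (sub_nonneg.mpr hx.le) (sub_nonneg.mpr hy)]
      exact (sq_le_sq₀ (norm_nonneg _) (norm_nonneg _)).mp this
    have := core_opp (g x) (g (refl e s x)) (g y) (g (refl e s y)) _ _ hk
    linarith [this]
  · rw [polar_out g hx, polar_refl_out he g hx, polar_out g hy, polar_refl_out he g hy]
    have hk : Kr r x (refl e s y) ≤ Kr r x y := by
      apply Kr_mono
      have : ‖x - y‖ ^ 2 ≤ ‖x - refl e s y‖ ^ 2 := by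
        rw [key]; nlinarith [mul_nonneg (sub_nonneg.mpr hx.le) (sub_nonneg.mpr hy.le)]
      exact (sq_le_sq₀ (norm_nonneg _) (norm_nonneg _)).mp this
    have := core_same (g x) (g (refl e s x)) (g y) (g (refl e s y)) _ _ hk
    linarith [this]

theorem Kr_rr {e : ℂ} (he : ‖e‖ = 1) (s r : ℝ) (x y : ℂ) :
    Kr r (refl e s x) (refl e s y) = Kr r x y := by
  unfold Kr; rw [refl_sub_refl he]

theorem Kr_r {e : ℂ} (he : ‖e‖ = 1) (s r : ℝ) (x y : ℂ) :
    Kr r (refl e s x) y = Kr r x (refl e s y) := by
  unfold Kr; rw [refl_sub he]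

theorem fold {e : ℂ} (he : ‖e‖ = 1) (s : ℝ) {g : ℂ → ℝ} (hg : Integrable g) (r : ℝ) :
    Integrable (fun p : ℂ × ℂ => Phi e s r g p.1 p.2) ((volume : Measure ℂ).prod volume) ∧
    4 * inter r g = ∫ p : ℂ × ℂ, Phi e s r g p.1 p.2 ∂((volume : Measure ℂ).prod volume) := by
  have hm := refl_mp he s
  have hi := MeasurePreserving.id (volume : Measure ℂ)
  have m1 : MeasurePreserving (Prod.map (refl e s) id) ((volume : Measure ℂ).prod volume)
      ((volume : Measure ℂ).prod volume) := hm.prod hi
  have m2 : MeasurePreserving (Prod.map id (refl e s)) ((volume : Measure ℂ).prod volume)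
      ((volume : Measure ℂ).prod volume) := hi.prod hm
  have m3 : MeasurePreserving (Prod.map (refl e s) (refl e s)) ((volume : Measure ℂ).prod volume)
      ((volume : Measure ℂ).prod volume) := hm.prod hm
  have i0 := FF_int hg r
  have tr : ∀ T : ℂ × ℂ → ℂ × ℂ, MeasurePreserving T ((volume : Measure ℂ).prod volume)
      ((volume : Measure ℂ).prod volume) → Integrable (fun p => FF r g (T p))
        ((volume : Measure ℂ).prod volume) ∧
      (∫ p, FF r g (T p) ∂((volume : Measure ℂ).prod volume)) = inter r g := by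
    intro T hT
    refine ⟨?_, ?_⟩
    · exact (hT.integrable_comp i0.aestronglyMeasurable).mpr i0
    · rw [inter_eq hg]
      have h := integral_map hT.aemeasurable (f := FF r g)
        (μ := (volume : Measure ℂ).prod volume) (by rw [hT.map_eq]; exact i0.aestronglyMeasurable)
      rw [hT.map_eq] at h
      exact h.symm
  obtain ⟨j1, e1⟩ := tr _ m1
  obtain ⟨j2, e2⟩ := tr _ m2
  obtain ⟨j3, e3⟩ := tr _ m3
  have hP : (fun p : ℂ × ℂ => Phi e s r g p.1 p.2) = fun p =>
      (FF r g p + FF r g (Prod.map (refl e s) (refl e s) p)) +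
        (FF r g (Prod.map (refl e s) id p) + FF r g (Prod.map id (refl e s) p)) := by
    funext p
    simp only [FF, Phi, Prod.map_fst, Prod.map_snd, id, Kr_rr he, Kr_r he]
    ring
  rw [hP]
  have k1 : Integrable (fun p => FF r g p + FF r g (Prod.map (refl e s) (refl e s) p))
      ((volume : Measure ℂ).prod volume) := i0.add j3
  have k2 : Integrable (fun p => FF r g (Prod.map (refl e s) id p) +
      FF r g (Prod.map id (refl e s) p)) ((volume : Measure ℂ).prod volume) := j1.add j2
  refine ⟨k1.add k2, ?_⟩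
  rw [integral_add k1 k2, integral_add i0 j3, integral_add j1 j2, e1, e2, e3,
    ← inter_eq hg]
  ring

theorem polar_integrable {e : ℂ} (he : ‖e‖ = 1) (s : ℝ) {g : ℂ → ℝ} (hc : Measurable g)
    (hg : Integrable g) : Integrable (polar e s g) := by
  have hgr : Integrable (fun x => g (refl e s x)) :=
    ((refl_mp he s).integrable_comp hg.aestronglyMeasurable).mpr hg
  have hmr : Measurable (fun x => g (refl e s x)) := hc.comp (refl_mp he s).measurable
  have hM : Measurable (polar e s g) := by
    unfold polar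
    apply Measurable.ite _ (hc.max hmr) (hc.min hmr)
    apply measurableSet_le _ measurable_const
    exact (continuous_const.inner continuous_id).measurable
  refine (hg.norm.add hgr.norm).mono' hM.aestronglyMeasurable
    (Filter.Eventually.of_forall fun x => ?_)
  simp only [Pi.add_apply, Real.norm_eq_abs]
  unfold polar
  split_ifs
  · rcases max_choice (g x) (g (refl e s x)) with h | h <;> rw [h]
    · linarith [abs_nonneg (g (refl e s x))]
    · linarith [abs_nonneg (g x)]
  · rcases min_choice (g x) (g (refl e s x)) with h | h <;> rw [h]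
    · linarith [abs_nonneg (g (refl e s x))]
    · linarith [abs_nonneg (g x)]

/-- POLI -/
theorem poli : PoliStmt := by
  intro e s L ρ g he hs hg r hr
  have hc : Continuous g := hg.lip.continuous
  have hsup : HasCompactSupport g := by
    refine HasCompactSupport.intro (isCompact_closedBall (0 : ℂ) ρ) (fun x hx => ?_)
    apply hg.supp
    rw [Metric.mem_closedBall, dist_zero_right] at hx
    exact (not_le.mp hx).le
  have hi : Integrable g := hc.integrable_of_hasCompactSupport hsup
  have hp : Integrable (polar e s g) := polar_integrable he s hc.measurable hi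
  obtain ⟨a1, a2⟩ := fold he s hi r
  obtain ⟨b1, b2⟩ := fold he s hp r
  have : (∫ p : ℂ × ℂ, Phi e s r g p.1 p.2 ∂((volume : Measure ℂ).prod volume)) ≤
      ∫ p : ℂ × ℂ, Phi e s r (polar e s g) p.1 p.2 ∂((volume : Measure ℂ).prod volume) :=
    integral_mono a1 b1 (fun p => Phi_le he s r g p.1 p.2)
  rw [← a2, ← b2] at this
  linarith

end Pool.Agent.RFK.H7
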